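import Pool.Agent.W960.KS.A3

/-! # Smoothed analysis of the number of limit cycles: almost linear dependence on the degree

For every planar polynomial system of degree at most `n`, with coefficients `c₀`: after adding
independent Gaussian noise of standard deviation `σ` to all its coefficients the expected number of
all closed orbits in the plane is at most
`5 * 10 ^ 14 * n * X * (1 + log (n X)) * min (n ^ 2) ((1 + log n) ^ 2 * X ^ 2)`, `X = 1 + |c₀| / σ`.

The theorem is the final theorem of the development `Pool.Agent.W960.KS` of the starting files, which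
has not been handed in. -/

open Set MeasureTheory
open scoped ENNReal

namespace Pool.Agent.Results.MP_95e7ec_an.AlmostLinearSmoothed

/-- the exponents `(i, j)` of all monomials of degree at most `n` -/
def exponents (n : ℕ) : Finset (ℕ × ℕ) :=
  (Finset.range (n + 1) ×ˢ Finset.range (n + 1)).filter fun m => m.1 + m.2 ≤ n

/-- The number of all nonconstant closed orbits (limit cycles or not) in the plane `ℝ²` of the system
`x' = ∑ a_{ij} x^i y^j`, `y' = ∑ b_{ij} x^i y^j`, `i + j ≤ n`, where `c (i,j) = (a_{ij}, b_{ij})`. -/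
noncomputable def closedOrbits (n : ℕ) (c : exponents n → ℝ × ℝ) : ℝ≥0∞ :=
  (({C : Set (ℝ × ℝ) | ∃ γ : ℝ → ℝ × ℝ, ∃ T : ℝ, 0 < T ∧
    (∀ t : ℝ, HasDerivAt γ
      (∑ m : exponents n, (c m).1 * ((γ t).1 ^ m.1.1 * (γ t).2 ^ m.1.2),
       ∑ m : exponents n, (c m).2 * ((γ t).1 ^ m.1.1 * (γ t).2 ^ m.1.2)) t) ∧
    (∀ t : ℝ, γ (t + T) = γ t) ∧ (∃ s t : ℝ, γ s ≠ γ t) ∧ C = Set.range γ}.encard : ℕ∞) : ℝ≥0∞)

/-- the Euclidean length of the vector of all coefficients -/
noncomputable def size (n : ℕ) (c : exponents n → ℝ × ℝ) : ℝ :=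
  √(∑ m : exponents n, ((c m).1 ^ 2 + (c m).2 ^ 2))

/-- the system with coefficients `c₀ + σ g` -/
def perturbed (n : ℕ) (c₀ : exponents n → ℝ × ℝ) (σ : ℝ) (g : exponents n → ℝ × ℝ) :
    exponents n → ℝ × ℝ :=
  fun m => ((c₀ m).1 + σ * (g m).1, (c₀ m).2 + σ * (g m).2)

lemma closedOrbits_eq (n : ℕ) (c : exponents n → ℝ × ℝ) : closedOrbits n c = H709R2.NP c := by
  have h1 : ∀ p : ℝ × ℝ, (∑ m : exponents n, (c m).1 * (p.1 ^ m.1.1 * p.2 ^ m.1.2),
      ∑ m : exponents n, (c m).2 * (p.1 ^ m.1.1 * p.2 ^ m.1.2)) = H709R2.fld c p := by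
    intro p
    unfold H709R2.fld
    ext
    · simp only [Prod.fst_sum, Prod.smul_fst, smul_eq_mul]
      exact Finset.sum_congr rfl fun m _ => mul_comm _ _
    · simp only [Prod.snd_sum, Prod.smul_snd, smul_eq_mul]
      exact Finset.sum_congr rfl fun m _ => mul_comm _ _
  unfold H709R2.NP closedOrbits H709R2.ClosedOrbit
  simp only [h1]

/-- Let `n ≥ 1`, let `c₀` be the coefficients of a planar polynomial system of degree at most `n` and
`σ > 0`. The number of closed orbits is a Borel function of the coefficients. If `g` is a vector of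
independent standard normal variables, the expected number of closed orbits of the system with
coefficients `c₀ + σ g` is at most
`5 * 10 ^ 14 * n * X * (1 + log (n X)) * min (n ^ 2) ((1 + log n) ^ 2 * X ^ 2)`, where
`X = 1 + |c₀| / σ`. -/
theorem result (n : ℕ) (hn : 1 ≤ n) (c₀ : exponents n → ℝ × ℝ) (σ : ℝ) (hσ : 0 < σ) :
    Measurable (closedOrbits n) ∧
    ∫⁻ g, closedOrbits n (perturbed n c₀ σ g)
      ∂(Measure.pi fun _ : exponents n =>
        (ProbabilityTheory.gaussianReal 0 1).prod (ProbabilityTheory.gaussianReal 0 1)) ≤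
      ENNReal.ofReal (5 * 10 ^ 14 * n * (1 + size n c₀ / σ) *
        (1 + Real.log (n * (1 + size n c₀ / σ))) *
        min ((n:ℝ) ^ 2) ((1 + Real.log n) ^ 2 * (1 + size n c₀ / σ) ^ 2)) := by
  have hc : closedOrbits n = H709R2.NP := funext fun c => closedOrbits_eq n c
  have hs : size n c₀ = √(W960.HR.sn c₀) := by
    unfold size W960.HR.sn H709R2.sq
    rfl
  rw [hc, hs]
  exact ⟨H709R2.measurable_NP, W960.KS.kac_smoothed hn c₀ hσ⟩

end Pool.Agent.Results.MP_95e7ec_an.AlmostLinearSmoothed
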