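import Pool.Agent.H811R2.T.K

/-! # Linear focus plus homogeneous nonlinearity of even degree: the mean number of closed orbits is
bounded uniformly in the degree

There is an absolute constant `K` such that for every even `n ≥ 2` and every homogeneous real
polynomial map `P` of the plane of degree `n` the number of closed orbits around the origin of the
system `z' = (μ + i) z + P(z)`, averaged over `-M ≤ μ ≤ M`, is at most `K`, for all `M ≥ 1`.

The theorem is the final theorem of the development `Pool.Agent.H811R2` of the starting files, which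
has not been handed in. -/

open Set MeasureTheory
open scoped ENNReal

namespace Pool.Agent.Results.MP_95e7ec_an.HomogeneousEvenMean

/-- The planar vector field `(μ + i) z + ∑ j ≤ n, c j z ^ j (conj z) ^ (n - j)`: a focus plus a
homogeneous polynomial of degree `n` (every homogeneous real polynomial map of degree `n` of the plane
has this form). -/
noncomputable def field (n : ℕ) (c : ℕ → ℂ) (μ : ℝ) (z : ℂ) : ℂ :=
  ((μ : ℂ) + Complex.I) * z +
    ∑ j ∈ Finset.range (n + 1), c j * (z ^ j * (starRingEnd ℂ) z ^ (n - j))

/-- The closed orbits of `z' = V z` which surround the origin: the ranges `C` of periodic solutions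
such that the component of the origin in the complement of `C` is bounded. -/
def closedOrbitsAround (V : ℂ → ℂ) : Set (Set ℂ) :=
  {C | (∃ γ : ℝ → ℂ, ∃ T : ℝ, 0 < T ∧ (∀ t, HasDerivAt γ (V (γ t)) t) ∧
      (∀ t, γ (t + T) = γ t) ∧ C = Set.range γ) ∧
    (0:ℂ) ∉ C ∧ Bornology.IsBounded (connectedComponentIn Cᶜ 0)}

/-- There is an absolute constant `K` such that for every even `n ≥ 2`, all coefficients `c` and all
`M ≥ 1` the number of closed orbits around the origin of `z' = (μ + i) z + ∑ c j z ^ j (conj z) ^ (n - j)`
has a Borel majorant on `-M ≤ μ ≤ M` with mean value at most `K`. -/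
theorem result : ∃ K : ℝ, 0 ≤ K ∧ ∀ (n : ℕ) (c : ℕ → ℂ), 2 ≤ n → Even n → ∀ M : ℝ, 1 ≤ M →
    ∃ g : ℝ → ℝ≥0∞, Measurable g ∧
      (∀ μ ∈ Icc (-M) M, (((closedOrbitsAround (field n c μ)).encard : ℕ∞) : ℝ≥0∞) ≤ g μ) ∧
      ∫⁻ μ in Icc (-M) M, g μ ≤ ENNReal.ofReal (K * (2 * M)) :=
  H811R2.Quad.even_mean

end Pool.Agent.Results.MP_95e7ec_an.HomogeneousEvenMean
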