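import Pool.Agent.TH275.LF.Lien3

/-! # Liénard systems: the mean number of closed orbits is at most quadratic in the degree, and in the
number of monomials whatever the degree

For every polynomial `p` the number of all closed orbits of the Liénard system
`x' = y - p(x) + s x, y' = -x`, averaged over `a < s < a + 1`, is at most `320000 n ^ 2`, where `n` is
the degree of `p`, and at most `900000 (m + 1) ^ 2` where `m` is the number of monomials of `p` of
degree at least two.  The sum over all closed orbits of a single system of the lengths of the sets of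
parameters in `(-1, 1)` up to which they persist is at most `1800000 (m + 1) ^ 2`.

There is no restriction on the size of the orbits or of the coefficients. The theorems are final
theorems of the developments `Pool.Agent.H709L` and `Pool.Agent.TH275.LF` of the starting files, which
have not been handed in. -/

open Set MeasureTheory
open scoped ENNReal

namespace Pool.Agent.Results.MP_95e7ec_an.LienardSystems

/-- The nonconstant closed orbits (limit cycles or not) in the plane of the Liénard system
`x' = y - p(x) + s x, y' = -x`. -/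
def closedOrbits (p : Polynomial ℝ) (s : ℝ) : Set (Set (ℝ × ℝ)) :=
  {C | ∃ γ : ℝ → ℝ × ℝ, ∃ T : ℝ, 0 < T ∧
    (∀ t : ℝ, HasDerivAt γ ((γ t).2 - p.eval (γ t).1 + s * (γ t).1, -(γ t).1) t) ∧
    (∀ t : ℝ, γ (t + T) = γ t) ∧ (∃ s t : ℝ, γ s ≠ γ t) ∧ C = Set.range γ}

/-- The closed orbit `C` of the system with parameter `0` persists when the parameter runs from `0`
to `η`: there is a continuous family of closed orbits of the systems with parameters between `0` and
`η` which starts with `C`. -/
def Persists (p : Polynomial ℝ) (η : ℝ) (C : Set (ℝ × ℝ)) : Prop :=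
  ∃ γ : ℝ → ℝ → ℝ × ℝ, ∃ T : ℝ → ℝ,
    ContinuousOn (fun q : ℝ × ℝ => γ q.1 q.2) (uIcc 0 η ×ˢ univ) ∧ ContinuousOn T (uIcc 0 η) ∧
    (∀ a ∈ uIcc 0 η, 0 < T a ∧
      (∀ t, HasDerivAt (γ a) ((γ a t).2 - p.eval (γ a t).1 + a * (γ a t).1, -(γ a t).1) t) ∧
      (∀ t, γ a (t + T a) = γ a t) ∧ ∃ s t, γ a s ≠ γ a t) ∧
    C = range (γ 0)

/-- Let `p` be a real polynomial of degree at most `n`, `n ≥ 1`, with at most `m` monomials of degree
at least two. The number of closed orbits of the Liénard system `x' = y - p(x) + s x, y' = -x` is a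
Borel function of `s`; its integral over every interval `(a, a + 1)` is at most `320000 n ^ 2` and at
most `900000 (m + 1) ^ 2`; and the sum over all closed orbits of the system `x' = y - p(x), y' = -x` of
the lengths of the sets of the `η ∈ (-1, 1)` up to which they persist is at most
`1800000 (m + 1) ^ 2`. -/
theorem result (p : Polynomial ℝ) (n m : ℕ) (hn : p.natDegree ≤ n) (hn1 : 1 ≤ n)
    (hm : (p.support.filter (fun e => 2 ≤ e)).card ≤ m) :
    Measurable (fun s => ((closedOrbits p s).encard : ℝ≥0∞)) ∧
    (∀ a : ℝ, ∫⁻ s in Ioo a (a + 1), ((closedOrbits p s).encard : ℝ≥0∞) ≤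
      ENNReal.ofReal (320000 * n ^ 2)) ∧
    (∀ a : ℝ, ∫⁻ s in Ioo a (a + 1), ((closedOrbits p s).encard : ℝ≥0∞) ≤
      ENNReal.ofReal (900000 * (m + 1) ^ 2)) ∧
    ∑' C : closedOrbits p 0, volume {η | η ∈ Ioo (-1) 1 ∧ Persists p η C} ≤
      ENNReal.ofReal (1800000 * (m + 1) ^ 2) := by
  have h := H709L.lienard_mean p n hn hn1
  exact ⟨h.1, h.2, fun a => TH275.LF.mean_sparse p m hm a,
    TH275.LF.total_sparse p m hm (closedOrbits p 0)⟩

end Pool.Agent.Results.MP_95e7ec_an.LienardSystems
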