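import Pool.Agent.H709Q.Meas

/-! # Quadratic systems: the mean number of closed orbits over the rotations of the field is at most
an absolute constant

For every planar quadratic system (twelve real coefficients, no restriction) the number of all its
closed orbits in the plane, averaged over the rotations of the vector field by the angles
`0 < α ≤ 2 π`, is at most `1544 * 10 ^ 6 / (2 π) < 246 * 10 ^ 6`.  Consequently the expected number of
closed orbits of a random quadratic system is at most `246 * 10 ^ 6` for every rotation invariant law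
of the twelve coefficients.

There is no restriction on the size or the position of the orbits, no moment or density condition on
the law. The theorem is the final theorem of the development `Pool.Agent.H709Q` of the starting
files, which has not been handed in. -/

open Set MeasureTheory
open scoped ENNReal

namespace Pool.Agent.Results.MP_95e7ec_an.QuadraticRotationMean

/-- the quadratic vector field with coefficient vectors `c 0, …, c 5` of `1, x, y, x², x y, y²` -/
def quadraticField (c : Fin 6 → ℝ × ℝ) (z : ℝ × ℝ) : ℝ × ℝ :=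
  ((c 0).1 + (c 1).1 * z.1 + (c 2).1 * z.2 + (c 3).1 * z.1 ^ 2 + (c 4).1 * (z.1 * z.2) +
      (c 5).1 * z.2 ^ 2,
    (c 0).2 + (c 1).2 * z.1 + (c 2).2 * z.2 + (c 3).2 * z.1 ^ 2 + (c 4).2 * (z.1 * z.2) +
      (c 5).2 * z.2 ^ 2)

/-- The number of all nonconstant closed orbits (limit cycles or not) in the plane `ℝ²` of the
quadratic system `z' = quadraticField c z`. -/
noncomputable def closedOrbits (c : Fin 6 → ℝ × ℝ) : ℝ≥0∞ :=
  (({C : Set (ℝ × ℝ) | ∃ γ : ℝ → ℝ × ℝ, ∃ T : ℝ, 0 < T ∧
    (∀ t : ℝ, HasDerivAt γ (quadraticField c (γ t)) t) ∧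
    (∀ t : ℝ, γ (t + T) = γ t) ∧ (∃ s t : ℝ, γ s ≠ γ t) ∧ C = Set.range γ}.encard : ℕ∞) : ℝ≥0∞)

/-- The number of the limit cycles: the closed orbits which have a neighbourhood that contains no
other closed orbit. -/
noncomputable def limitCycles (c : Fin 6 → ℝ × ℝ) : ℝ≥0∞ :=
  (({C : Set (ℝ × ℝ) | (∃ γ : ℝ → ℝ × ℝ, ∃ T : ℝ, 0 < T ∧
    (∀ t : ℝ, HasDerivAt γ (quadraticField c (γ t)) t) ∧
    (∀ t : ℝ, γ (t + T) = γ t) ∧ (∃ s t : ℝ, γ s ≠ γ t) ∧ C = Set.range γ) ∧
    ∃ U : Set (ℝ × ℝ), IsOpen U ∧ C ⊆ U ∧ ∀ D : Set (ℝ × ℝ), (∃ γ : ℝ → ℝ × ℝ, ∃ T : ℝ, 0 < T ∧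
      (∀ t : ℝ, HasDerivAt γ (quadraticField c (γ t)) t) ∧
      (∀ t : ℝ, γ (t + T) = γ t) ∧ (∃ s t : ℝ, γ s ≠ γ t) ∧ D = Set.range γ) → D ⊆ U →
        D = C}.encard : ℕ∞) : ℝ≥0∞)

/-- rotation of the vector field: every coefficient vector is rotated by the angle `α`, so that
`quadraticField (rotate α c) z` is `quadraticField c z` rotated by `α` -/
noncomputable def rotate (α : ℝ) (c : Fin 6 → ℝ × ℝ) : Fin 6 → ℝ × ℝ := fun i =>
  (Real.cos α * (c i).1 - Real.sin α * (c i).2, Real.sin α * (c i).1 + Real.cos α * (c i).2)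

lemma field_eq (c : Fin 6 → ℝ × ℝ) : quadraticField c = H709Q.qf c := by
  funext z
  unfold quadraticField H709Q.qf
  ext <;> simp <;> ring

lemma closedOrbits_eq : closedOrbits = H709Q.NQ := by
  funext c
  unfold closedOrbits H709Q.NQ H709R2.ClosedOrbit
  rw [field_eq]

lemma rotate_eq (α : ℝ) (c : Fin 6 → ℝ × ℝ) : rotate α c = H709Q.rc α c := rfl

/-- The number of closed orbits is a Borel function of the twelve coefficients, and:
(1) for every quadratic system the integral over `0 < α ≤ 2 π` of the number of closed orbits of the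
system rotated by `α` is at most `1544 * 10 ^ 6`; in particular the number of closed orbits is finite
for almost every `α`, and the integral of the number of limit cycles has the same bound;
(2) for every probability law on the twelve coefficients which is invariant under the rotations the
expected number of closed orbits is at most `246 * 10 ^ 6`. -/
theorem result :
    Measurable closedOrbits ∧ (∀ c, limitCycles c ≤ closedOrbits c) ∧
    (∀ c : Fin 6 → ℝ × ℝ,
      ∫⁻ α in Ioc 0 (2 * Real.pi), closedOrbits (rotate α c) ≤ ENNReal.ofReal (1544 * 10 ^ 6) ∧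
      ∀ᵐ α ∂(volume.restrict (Ioc 0 (2 * Real.pi))), closedOrbits (rotate α c) < ⊤) ∧
    ∀ μ : Measure (Fin 6 → ℝ × ℝ), IsProbabilityMeasure μ → (∀ α, μ.map (rotate α) = μ) →
      ∫⁻ c, closedOrbits c ∂μ ≤ ENNReal.ofReal (246 * 10 ^ 6) := by
  refine ⟨?_, ?_, ?_, ?_⟩
  · rw [closedOrbits_eq]; exact H709Q.measurable_NQ
  · intro c
    unfold limitCycles closedOrbits
    apply ENat.toENNReal_mono
    apply Set.encard_le_encard
    rintro C ⟨h, -⟩
    exact h
  · intro c
    have h := H709Q.main_single c
    rw [closedOrbits_eq]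
    refine ⟨h.2, ?_⟩
    have h1 : ∫⁻ α in Ioc 0 (2 * Real.pi), H709Q.NQ (rotate α c) ≠ ⊤ :=
      ne_top_of_le_ne_top ENNReal.ofReal_ne_top h.2
    exact ae_lt_top h.1 h1
  · intro μ hμ hinv
    rw [closedOrbits_eq]
    exact H709Q.main_measure μ hinv

end Pool.Agent.Results.MP_95e7ec_an.QuadraticRotationMean
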